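import Pool.Agent.helper22.GS.Spec

set_option autoImplicit false

namespace Pool.Agent.GS

theorem BE_conj {S : Type} [Group S] (f : MulAut S) (t : S) :
    f * MulAut.conj t = MulAut.conj (f t) * f := by
  ext y
  simp only [MulAut.mul_apply, MulAut.conj_apply, map_mul, map_inv]

theorem BE_mem {S : Type} [Group S] (x g : MulAut S)
    (hg : g ∈ Subgroup.closure (insert x (Set.range (MulAut.conj : S →* MulAut S)))) :
    ∃ (s : S) (n : ℤ), g = MulAut.conj s * x ^ n := by
  induction hg using Subgroup.closure_induction with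
  | mem y hy =>
    rcases hy with rfl | ⟨t, rfl⟩
    · exact ⟨1, 1, by simp⟩
    · exact ⟨t, 0, by simp⟩
  | one => exact ⟨1, 0, by simp⟩
  | mul a b _ _ ha hb =>
    obtain ⟨s, n, rfl⟩ := ha
    obtain ⟨t, m, rfl⟩ := hb
    refine ⟨s * (x ^ n) t, n + m, ?_⟩
    rw [map_mul, zpow_add, mul_assoc, ← mul_assoc (x ^ n) (MulAut.conj t), BE_conj]
    simp only [mul_assoc]
  | inv a _ ha =>
    obtain ⟨s, n, rfl⟩ := ha
    refine ⟨(x ^ (-n)) s⁻¹, -n, ?_⟩
    rw [mul_inv_rev, ← zpow_neg, ← map_inv, BE_conj]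

theorem BE : BE_stmt := by
  intro S _ r x k
  constructor
  · rintro ⟨hk, g, hg, hr⟩
    refine ⟨hk, ?_⟩
    choose s n hs using fun i => BE_mem x (g i) (hg i)
    refine ⟨s, ?_⟩
    have h : (fun i => MulAut.conj (s i) * x * (MulAut.conj (s i))⁻¹) =
        fun i => g i * x * (g i)⁻¹ := by
      funext i
      rw [hs i, mul_inv_rev, mul_assoc (MulAut.conj (s i)) (x ^ n i) x, ← zpow_add_one,
        add_comm, zpow_one_add]
      simp only [mul_assoc, mul_inv_cancel_left]
    rw [h]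
    exact hr
  · rintro ⟨hk, s, hr⟩
    exact ⟨hk, fun i => MulAut.conj (s i), fun i => Subgroup.subset_closure
      (Set.mem_insert_of_mem _ ⟨s i, rfl⟩), hr⟩

end Pool.Agent.GS
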