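import Pool.Agent.helper22.GS.Spec

set_option autoImplicit false

namespace Pool.Agent.GS

open Module

theorem MXP_form (n : ℕ) (F : Type) [Field F]
    (A : Matrix (Fin n ⊕ Fin n) (Fin n ⊕ Fin n) F) (u v : Fin n ⊕ Fin n → F) :
    BJ n F (A.mulVec u) (A.mulVec v) =
      Matrix.toBilin' (A.transpose * Matrix.J (Fin n) F * A) u v := by
  unfold BJ
  rw [Matrix.toBilin'_apply', Matrix.toBilin'_apply']
  rw [← Matrix.mulVec_mulVec, ← Matrix.mulVec_mulVec, Matrix.dotProduct_mulVec u A.transpose,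
    Matrix.vecMul_transpose]

/-- the permutation attached to a symplectic matrix -/
def MXP_perm (n : ℕ) (F : Type) [Field F] (g : Matrix.symplecticGroup (Fin n) F) :
    Equiv.Perm (Fin n ⊕ Fin n → F) where
  toFun := (g : Matrix (Fin n ⊕ Fin n) (Fin n ⊕ Fin n) F).mulVec
  invFun := ((g⁻¹ : Matrix.symplecticGroup (Fin n) F) :
    Matrix (Fin n ⊕ Fin n) (Fin n ⊕ Fin n) F).mulVec
  left_inv := by
    intro v
    have h : ((g⁻¹ : Matrix.symplecticGroup (Fin n) F) :
      Matrix (Fin n ⊕ Fin n) (Fin n ⊕ Fin n) F) * (g : Matrix (Fin n ⊕ Fin n) (Fin n ⊕ Fin n) F)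
        = 1 := by
      have := congrArg (Subtype.val) (inv_mul_cancel g)
      exact this
    rw [Matrix.mulVec_mulVec, h, Matrix.one_mulVec]
  right_inv := by
    intro v
    have h : (g : Matrix (Fin n ⊕ Fin n) (Fin n ⊕ Fin n) F) *
      ((g⁻¹ : Matrix.symplecticGroup (Fin n) F) :
      Matrix (Fin n ⊕ Fin n) (Fin n ⊕ Fin n) F)
        = 1 := by
      have := congrArg (Subtype.val) (mul_inv_cancel g)
      exact this
    rw [Matrix.mulVec_mulVec, h, Matrix.one_mulVec]

theorem MXP : MXP_stmt := by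
  classical
  intro n F _
  refine ⟨{ toFun := MXP_perm n F, map_one' := ?_, map_mul' := ?_ }, ?_, ?_, ?_⟩
  · ext v i
    show ((1 : Matrix.symplecticGroup (Fin n) F) :
      Matrix (Fin n ⊕ Fin n) (Fin n ⊕ Fin n) F).mulVec v i = v i
    rw [OneMemClass.coe_one, Matrix.one_mulVec]
  · intro g h
    ext v i
    show ((g * h : Matrix.symplecticGroup (Fin n) F) :
      Matrix (Fin n ⊕ Fin n) (Fin n ⊕ Fin n) F).mulVec v i =
      (g : Matrix (Fin n ⊕ Fin n) (Fin n ⊕ Fin n) F).mulVec
        ((h : Matrix (Fin n ⊕ Fin n) (Fin n ⊕ Fin n) F).mulVec v) i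
    rw [Matrix.mulVec_mulVec]
    rfl
  · intro g h hgh
    apply Subtype.ext
    apply Matrix.ext_of_mulVec_single
    intro i
    exact congrFun (congrArg DFunLike.coe hgh) (Pi.single i 1)
  · ext p
    constructor
    · rintro ⟨g, rfl⟩
      refine ⟨⟨fun u v => ?_, fun c v => ?_⟩, fun u v => ?_⟩
      · exact Matrix.mulVec_add _ u v
      · exact Matrix.mulVec_smul _ c v
      · show BJ n F ((g : Matrix (Fin n ⊕ Fin n) (Fin n ⊕ Fin n) F).mulVec u)
          ((g : Matrix (Fin n ⊕ Fin n) (Fin n ⊕ Fin n) F).mulVec v) = BJ n F u v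
        rw [MXP_form, SymplecticGroup.mem_iff'.mp g.2]
        rfl
    · rintro ⟨⟨hadd, hsmul⟩, hform⟩
      let L : (Fin n ⊕ Fin n → F) →ₗ[F] (Fin n ⊕ Fin n → F) :=
        { toFun := p, map_add' := hadd, map_smul' := hsmul }
      have hL : ∀ v, (LinearMap.toMatrix' L).mulVec v = p v := by
        intro v
        rw [LinearMap.toMatrix'_mulVec]
        rfl
      have hmem : LinearMap.toMatrix' L ∈ Matrix.symplecticGroup (Fin n) F := by
        rw [SymplecticGroup.mem_iff']
        apply Matrix.toBilin'.injective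
        apply LinearMap.ext₂
        intro u v
        rw [← MXP_form, hL, hL]
        exact hform u v
      refine ⟨⟨LinearMap.toMatrix' L, hmem⟩, ?_⟩
      ext v i
      exact congrFun (hL v) i
  · intro g v
    rfl

end Pool.Agent.GS
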