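import Pool.Agent.helper22.GS.Spec

set_option autoImplicit false

namespace Pool.Agent.GS

open Module

theorem UN_nonisotropic {F W : Type} [Field F] [AddCommGroup W] [Module F W]
    (b : LinearMap.BilinForm F W) (h2 : (2 : F) ≠ 0) (hs : ∀ x y, b x y = b y x)
    (P : W → Prop) (hadd : ∀ x y, P x → P y → P (x + y))
    (h : ∀ x, P x → b x x = 0) : ∀ x y, P x → P y → b x y = 0 := by
  intro x y hx hy
  have h1 := h (x + y) (hadd x y hx hy)
  simp only [map_add, LinearMap.add_apply] at h1
  rw [h x hx, h y hy, hs y x] at h1
  have h3 : 2 * b x y = 0 := by linear_combination h1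
  rcases mul_eq_zero.mp h3 with h4 | h4
  · exact absurd h4 h2
  · exact h4

theorem UN : UN_stmt := by
  classical
  intro F W _ _ _ _ _ b hch hb hdim c hc
  have : Fintype F := Fintype.ofFinite F
  have h2 : (2 : F) ≠ 0 := Ring.two_ne_zero hch
  have hs := hb.symm
  -- first vector
  have hex : ∃ e, b e e ≠ 0 := by
    by_contra hcon
    push Not at hcon
    have h0 := UN_nonisotropic b h2 hs (fun _ => True) (fun _ _ _ _ => trivial) (fun x _ => hcon x)
    have hz : ∀ x : W, x = 0 := fun x => hb.nd x (fun y => h0 x y trivial trivial)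
    have : Subsingleton W := ⟨fun x y => by rw [hz x, hz y]⟩
    have := Module.finrank_zero_of_subsingleton (R := F) (M := W)
    omega
  obtain ⟨e, he⟩ := hex
  have hex2 : ∃ e', b e e' = 0 ∧ b e' e' ≠ 0 := by
    by_contra hcon
    push Not at hcon
    have h0 := UN_nonisotropic b h2 hs (fun x => b e x = 0)
      (fun x y hx hy => by rw [map_add, hx, hy, add_zero]) (fun x hx => hcon x hx)
    have hz : ∀ x : W, b e x = 0 → x = 0 := by
      intro x hx
      apply hb.nd
      intro y
      have hy : b e (y - (b e y / b e e) • e) = 0 := by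
        rw [map_sub, map_smul, smul_eq_mul, div_mul_cancel₀ _ he, sub_self]
      have h1 := h0 x _ hx hy
      rw [map_sub, map_smul, hs x e, hx, smul_zero, sub_zero] at h1
      exact h1
    have hinj : Function.Injective (b e) := by
      rw [injective_iff_map_eq_zero]
      exact hz
    have h3 := LinearMap.finrank_le_finrank_of_injective hinj
    rw [Module.finrank_self] at h3
    omega
  obtain ⟨e', hee, he'⟩ := hex2
  have hcard : Fintype.card F % 2 = 1 := FiniteField.odd_card_of_char_ne_two hch
  obtain ⟨x, y, hxy⟩ := FiniteField.exists_root_sum_quadratic (R := F)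
    (f := Polynomial.C (b e e) * Polynomial.X ^ 2 + Polynomial.C 0 * Polynomial.X + Polynomial.C (-c))
    (g := Polynomial.C (b e' e') * Polynomial.X ^ 2 + Polynomial.C 0 * Polynomial.X + Polynomial.C 0)
    (Polynomial.degree_quadratic he) (Polynomial.degree_quadratic he') hcard
  refine ⟨x • e + y • e', ?_⟩
  simp only [Polynomial.eval_add, Polynomial.eval_mul, Polynomial.eval_C, Polynomial.eval_pow,
    Polynomial.eval_X] at hxy
  simp only [map_add, map_smul, LinearMap.add_apply, LinearMap.smul_apply, smul_eq_mul]
  rw [hs e' e, hee]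
  linear_combination hxy

end Pool.Agent.GS
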