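import Pool.Agent.helper22.GS.SpecT

set_option autoImplicit false

namespace Pool.Agent.GS

open Module

noncomputable section

theorem MS1 (hH1 : H1_stmt) (hN2 : N2_stmt) : MS1_stmt := by
  intro F V _ _ _ _ B hB y ψ ν hy hall r hr hr2 hdv
  have hν := hy.ne
  obtain ⟨σ, hσ, s, hs⟩ := hH1 r hr hr2 hdv ν hν
  obtain ⟨v, hv⟩ := hall s
  have hc : B (y v) v ≠ 0 := by
    rw [hv]
    rintro rfl
    rw [mul_zero] at hs
    rcases mul_eq_zero.mp hs with h | h
    · exact hσ.ne h
    · exact hν h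
  set c : F := B (y v) v with hcdef
  have ha2 : ν⁻¹ * (c * c) = σ := by
    rw [hv, ← hs, mul_comm σ ν, ← mul_assoc, inv_mul_cancel₀ hν, one_mul]
  have hBv : B v (y v) = -c := by rw [hB.neg v (y v)]
  have hz : y * tv B v 1 * y⁻¹ * (tv B v 1)⁻¹ = tv B (y v) (ν⁻¹ * 1) * tv B v (-1) := by
    rw [tv_conj hB hy, tv_inv hB, map_one]
  refine ⟨tv B (y v) (ν⁻¹ * 1) * tv B v (-1), (SpG B).mul_mem (tv_mem hB _ _) (tv_mem hB _ _), ?_, ?_⟩
  · rw [← hz]
    exact Gen.comm (tv_mem hB v 1)
  · have hli : LinearIndependent F ![v, y v] := by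
      rw [LinearIndependent.pair_iff]
      intro p q hpq
      have h1 := congrArg (fun w => B w v) hpq
      have h2 := congrArg (fun w => B w (y v)) hpq
      simp only [map_add, map_smul, LinearMap.add_apply, LinearMap.smul_apply, smul_eq_mul, hB.alt,
        mul_zero, zero_add, add_zero, map_zero, LinearMap.zero_apply, ← hcdef, hBv] at h1 h2
      refine ⟨(mul_eq_zero.mp h2).resolve_right (neg_ne_zero.mpr hc), (mul_eq_zero.mp h1).resolve_right hc⟩
    refine hN2 r 1 σ hσ _ ((tv_lin hB _ _).mul (tv_lin hB _ _)) v (y v) hli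
      !![1, -c; -(ν⁻¹ * c), 1 + ν⁻¹ * (c * c)] ?_ ?_ ?_ ?_
    · rw [Matrix.det_fin_two_of]
      ring
    · rw [Matrix.trace_fin_two_of, ha2]
      ring
    · rw [Equiv.Perm.mul_apply, tv_apply hB, tv_apply hB, hB.alt, mul_zero, zero_smul, add_zero, hBv]
      simp only [Matrix.of_apply, Matrix.cons_val', Matrix.cons_val_zero, Matrix.cons_val_one,
        Matrix.cons_val_fin_one, one_smul]
      congr 2
      ring
    · rw [Equiv.Perm.mul_apply, tv_apply hB, tv_apply hB, ← hcdef]
      simp only [Matrix.of_apply, Matrix.cons_val', Matrix.cons_val_zero, Matrix.cons_val_one,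
        Matrix.cons_val_fin_one, map_add, map_smul, LinearMap.add_apply, LinearMap.smul_apply,
        smul_eq_mul, hB.alt, hBv, zero_add]
      module

end

end Pool.Agent.GS
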